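import Mathlib
import Pool.Agent.TH235.UB.Mini
import Pool.Agent.Results.MP_fd8838_nt.SimpleExceptional

set_option autoImplicit false

/-!
# Möller's exceptional sets for `d = 2`, `m = 3`: beyond the entropy exponent, uniformly in `R`

For `d = 2`, `m = 3` and every admissible `R = {r}` (`r` odd) the exceptional set `E(2, 3, {r})` has at
most `A |r| ^ (1-η) X ^ η` elements up to `X`, with one constant `A` and one exponent `η` strictly below
`H = 0.94995...`, the binary entropy of `log 2 / log 3` in bits.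
-/

namespace Pool.Agent.Results.MP_fd8838_nt.BelowEntropyTwoThree

open Finset

/-- The generalised Hasse-Syracuse map `H(x) = (m x - r_j) / d ^ a(x)`, where `j` is the residue of
`x` modulo `d` and `d ^ a(x)` is the largest power of `d` dividing `m x - r_j`. -/
def H (d m : ℕ) (r : ℤ → ℤ) (x : ℤ) : ℤ :=
  (m * x - r (x % d)) / (d : ℤ) ^ padicValInt d (m * x - r (x % d))

/-- The exceptional set `E(d, m, R)`: the positive integers `n` not divisible by `d` such that
`H^k(n) ≥ n` for all `k ≥ 1` for which `H^k(n)` is defined (the orbit stops at `y` if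
`m y ≤ r_j`). -/
def E (d m : ℕ) (r : ℤ → ℤ) : Set ℤ :=
  {n | 0 < n ∧ ¬ (d : ℤ) ∣ n ∧ ∀ k, 1 ≤ k →
    (∀ i < k, r ((H d m r)^[i] n % d) < m * (H d m r)^[i] n) → n ≤ (H d m r)^[k] n}

/-- the binary entropy of `log 2 / log 3` in bits, `0.94995...` -/
noncomputable def entropy : ℝ := Real.binEntropy (Real.log 2 / Real.log 3) / Real.log 2

theorem T_eq (r : ℤ → ℤ) :
    SimpleExceptional.T 2 3 r = Pool.Agent.H499R2.ND.Td (-r 1) := by
  funext x
  unfold SimpleExceptional.T Pool.Agent.H499R2.ND.Td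
  push_cast
  rcases Int.emod_two_eq_zero_or_one x with h | h
  · rw [if_pos h, if_pos h]
  · rw [h, if_neg (by norm_num), if_neg (by norm_num), sub_eq_add_neg]

/-- There are `η < H = 0.94995...` and `A > 0` such that for every admissible offset `r = r_1` (an odd
integer) and every `X ≥ 1` the exceptional set `E(2, 3, {r})` has at most `A |r| ^ (1 - η) X ^ η`
elements `n ≤ X`. -/
theorem result :
    ∃ η A : ℝ, η < entropy ∧ 0 < A ∧ ∀ r : ℤ → ℤ, (∀ j : ℤ, 1 ≤ j → j < 2 → (2 : ℤ) ∣ 3 * j - r j) →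
      ∀ X : ℝ, 1 ≤ X →
        ({n : ℤ | n ∈ E 2 3 r ∧ (n : ℝ) ≤ X}.ncard : ℝ) ≤ A * |(r 1 : ℝ)| ^ (1 - η) * X ^ η := by
  classical
  obtain ⟨η, A, hη0, hη, hA, h⟩ := Pool.Agent.TH235.UB.minV
  have hη1 : η < 1 := hη.trans (Pool.Agent.H319R2.beta_lt.trans (by norm_num))
  refine ⟨η, A + 3, hη, by linarith, fun r hr X hX => ?_⟩
  have hX0 : 0 < X := by linarith
  have hodd : Odd (-r 1) := by
    have h1 := hr 1 le_rfl (by norm_num)
    rw [Int.odd_iff]
    omega
  have hr0 : r 1 ≠ 0 := by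
    intro h0
    rw [h0] at hodd
    simp at hodd
  have hr1 : (1 : ℝ) ≤ |(r 1 : ℝ)| := by exact_mod_cast Int.one_le_abs hr0
  have hrp : 0 < |(r 1 : ℝ)| := by linarith
  have hneg : |((-r 1 : ℤ) : ℝ)| = |(r 1 : ℝ)| := by push_cast; rw [abs_neg]
  have hfin : {n : ℤ | n ∈ E 2 3 r ∧ (n : ℝ) ≤ X}.Finite := by
    apply (Set.finite_Icc (0 : ℤ) ⌊X⌋).subset
    rintro n ⟨hn, hnX⟩
    exact ⟨hn.1.le, Int.le_floor.2 hnX⟩
  rw [Set.ncard_eq_toFinset_card _ hfin]
  set F := hfin.toFinset with hF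
  have hmem : ∀ n ∈ F, n ∈ E 2 3 r ∧ (n : ℝ) ≤ X := by
    intro n hn
    rw [hF, Set.Finite.mem_toFinset] at hn
    exact hn
  set F1 := F.filter (fun n : ℤ => |(n : ℝ)| ≤ |(r 1 : ℝ)|) with hF1
  set F2 := F.filter (fun n : ℤ => ¬ |(n : ℝ)| ≤ |(r 1 : ℝ)|) with hF2
  have hsplit : (F.card : ℝ) = F1.card + F2.card := by
    rw [hF1, hF2]
    exact_mod_cast (card_filter_add_card_filter_not (s := F) _).symm
  have habs : ∀ n ∈ F, |(n : ℝ)| = n := by
    intro n hn
    have := (hmem n hn).1.1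
    exact abs_of_pos (by exact_mod_cast this)
  set V : ℝ := |(r 1 : ℝ)| ^ (1 - η) * X ^ η with hV
  have h1 : (F1.card : ℝ) ≤ 3 * V := by
    rcases le_total X |(r 1 : ℝ)| with hc | hc
    · have e1 := Pool.Agent.TH235.UB.card_abs_le hX F1 (by
        intro n hn
        rw [hF1, mem_filter] at hn
        rw [habs n hn.1]
        exact (hmem n hn.1).2)
      refine e1.trans (mul_le_mul_of_nonneg_left ?_ (by norm_num))
      calc X = X ^ (1 - η) * X ^ η := by
            rw [← Real.rpow_add hX0, sub_add_cancel, Real.rpow_one]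
        _ ≤ V := mul_le_mul_of_nonneg_right (Real.rpow_le_rpow hX0.le hc (by linarith))
            (Real.rpow_nonneg hX0.le _)
    · have e1 := Pool.Agent.TH235.UB.card_abs_le hr1 F1 (by
        intro n hn
        rw [hF1, mem_filter] at hn
        exact hn.2)
      refine e1.trans (mul_le_mul_of_nonneg_left ?_ (by norm_num))
      calc |(r 1 : ℝ)| = |(r 1 : ℝ)| ^ (1 - η) * |(r 1 : ℝ)| ^ η := by
            rw [← Real.rpow_add hrp, sub_add_cancel, Real.rpow_one]
        _ ≤ V := mul_le_mul_of_nonneg_left (Real.rpow_le_rpow hrp.le hc hη0.le)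
            (Real.rpow_nonneg hrp.le _)
  have h2 : (F2.card : ℝ) ≤ A * V := by
    have e1 := h (-r 1) hodd X hX F2 (by
      intro n hn
      rw [hF2, mem_filter] at hn
      obtain ⟨hnF, hnr⟩ := hn
      obtain ⟨hnE, hnX⟩ := hmem n hnF
      rw [habs n hnF] at hnr ⊢
      refine ⟨hnX, fun i => ?_⟩
      have hnr' : |r 1| < n := by
        push Not at hnr
        exact_mod_cast hnr
      have e2 := SimpleExceptional.orbit_ge (d := 2) (m := 3) (r := r) (R := |r 1|) (n := n)
        Nat.prime_two (by norm_num) (fun j hj1 hj2 => by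
          have := hr j hj1 (by exact_mod_cast hj2)
          exact_mod_cast this) (fun j hj1 hj2 => by
          have : j = 1 := by push_cast at hj2; omega
          rw [this]
          exact le_abs_self _) hnE hnr' i
      rw [T_eq] at e2
      have e3 : (n : ℝ) ≤ (((Pool.Agent.H499R2.ND.Td (-r 1))^[i] n : ℤ) : ℝ) := by exact_mod_cast e2
      exact e3.trans (le_abs_self _))
    rw [hneg] at e1
    refine e1.trans (le_of_eq ?_)
    rw [hV]; ring
  rw [hsplit]
  calc (F1.card : ℝ) + F2.card ≤ 3 * V + A * V := add_le_add h1 h2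
    _ = _ := by rw [hV]; ring

end Pool.Agent.Results.MP_fd8838_nt.BelowEntropyTwoThree
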