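import Pool.Agent.TH930.GH.MollerB
import Pool.Agent.H319R2.GMoller2

set_option autoImplicit false

/-! Möller's maps: the elements `≤ y` of the exceptional set capture almost all orbits, with a power
saving beyond the entropy exponent. -/

namespace Pool.Agent.Results.MP_fd8838_nt.CaptureRate

open Finset

/-- the map `T(n) = n / d` if `d ∣ n` and `(m n - r_j) / d` if `n ≡ j mod d`, `1 ≤ j < d`; the points of a
`T`-orbit that are not divisible by `d` form the `H`-orbit -/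
def T (d m : ℕ) (r : ℕ → ℤ) (n : ℤ) : ℤ :=
  if (d : ℤ) ∣ n then n / d else (m * n - r (n % d).toNat) / d

/-- the exceptional set `E(d, m, R)`, in terms of `T`: the integers `e > 0` not divisible by `d` such that,
as long as the orbit of `e` stays positive, its terms not divisible by `d` (the terms of the `H`-orbit)
are `≥ e` -/
def E (d m : ℕ) (r : ℕ → ℤ) : Set ℤ :=
  {e : ℤ | 0 < e ∧ ¬ (d : ℤ) ∣ e ∧ ∀ k : ℕ, (∀ j ≤ k, 0 < (T d m r)^[j] e) →
    ¬ (d : ℤ) ∣ (T d m r)^[k] e → e ≤ (T d m r)^[k] e}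

/-- a positive orbit contains a term not divisible by `d` that is at most the starting point -/
theorem exists_nd {d m : ℕ} {r : ℕ → ℤ} (hd : 2 ≤ d) (N : ℕ) : ∀ z : ℤ, 0 < z → z.toNat ≤ N →
    (∀ k : ℕ, 0 < (T d m r)^[k] z) → ∃ i : ℕ, ¬ (d : ℤ) ∣ (T d m r)^[i] z ∧ (T d m r)^[i] z ≤ z := by
  induction N with
  | zero => intro z hz h; omega
  | succ N ih =>
    intro z hz hN hpos
    by_cases h : (d : ℤ) ∣ z
    · have hT : T d m r z = z / d := by unfold T; rw [if_pos h]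
      obtain ⟨t, ht⟩ := h
      have hd0 : (0 : ℤ) < d := by exact_mod_cast (by omega : 0 < d)
      have hTt : T d m r z = t := by rw [hT, ht, Int.mul_ediv_cancel_left _ hd0.ne']
      have ht0 : 0 < t := by
        by_contra hcon
        push Not at hcon
        nlinarith
      have hd2 : (2 : ℤ) ≤ d := by exact_mod_cast hd
      have htz : t < z := by nlinarith
      obtain ⟨i, h1, h2⟩ := ih t ht0 (by omega) (fun k => by
        have := hpos (k + 1)
        rwa [Function.iterate_succ_apply, hTt] at this)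
      refine ⟨i + 1, ?_, ?_⟩
      · rwa [Function.iterate_succ_apply, hTt]
      · rw [Function.iterate_succ_apply, hTt]; linarith
    · exact ⟨0, h, le_refl _⟩

/-- a positive orbit that reaches a value `≤ y` passes through an element `≤ y` of `E` -/
theorem capture {d m : ℕ} {r : ℕ → ℤ} (hd : 2 ≤ d) {n : ℤ} (hpos : ∀ k : ℕ, 0 < (T d m r)^[k] n)
    {y : ℝ} {k : ℕ} (hk : (((T d m r)^[k] n : ℤ) : ℝ) ≤ y) :
    ∃ j : ℕ, (T d m r)^[j] n ∈ E d m r ∧ (((T d m r)^[j] n : ℤ) : ℝ) ≤ y := by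
  classical
  obtain ⟨i, h1, h2⟩ := exists_nd (m := m) (r := r) hd _ _ (hpos k) le_rfl (fun j => by
    rw [← Function.iterate_add_apply]; exact hpos _)
  rw [← Function.iterate_add_apply] at h1 h2
  have hex : ∃ v : ℕ, ∃ j : ℕ, ¬ (d : ℤ) ∣ (T d m r)^[j] n ∧ ((T d m r)^[j] n).toNat = v :=
    ⟨_, i + k, h1, rfl⟩
  obtain ⟨j, hj1, hj2⟩ := Nat.find_spec hex
  have hmin : ∀ l : ℕ, ¬ (d : ℤ) ∣ (T d m r)^[l] n → (T d m r)^[j] n ≤ (T d m r)^[l] n := by
    intro l hl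
    have h3 := Nat.find_min' hex ⟨l, hl, rfl⟩
    have h4 := hpos l
    have h5 := hpos j
    omega
  refine ⟨j, ⟨hpos j, hj1, ?_⟩, ?_⟩
  · intro l _ hl
    rw [← Function.iterate_add_apply] at hl ⊢
    exact hmin _ hl
  · have h3 := (hmin _ h1).trans h2
    have h4 : (((T d m r)^[j] n : ℤ) : ℝ) ≤ (((T d m r)^[k] n : ℤ) : ℝ) := by exact_mod_cast h3
    linarith

/-- the map as a map of the general form -/
theorem T_eq (d m : ℕ) (hd : 2 ≤ d) (r : ℕ → ℤ) :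
    T d m r = Pool.Agent.H319R3.GC.Tm d (Pool.Agent.TH930.GH.mq m) (fun i => if i = 0 then 0 else r i) := by
  funext n
  unfold T Pool.Agent.H319R3.GC.Tm
  have hn0 : 0 ≤ n % (d : ℤ) := Int.emod_nonneg _ (by omega)
  by_cases h : (d : ℤ) ∣ n
  · have h1 : (n % (d : ℤ)).toNat = 0 := by
      rw [Int.emod_eq_zero_of_dvd h]; rfl
    rw [if_pos h, h1]
    simp [Pool.Agent.TH930.GH.mq]
  · have h1 : (n % (d : ℤ)).toNat ≠ 0 := by
      intro h2
      apply h
      apply Int.dvd_of_emod_eq_zero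
      omega
    rw [if_neg h]
    simp [Pool.Agent.TH930.GH.mq, h1]

theorem adm_r {d m : ℕ} {r : ℕ → ℤ} (hr : ∀ j : ℕ, 1 ≤ j → j < d → r j ≡ m * j [ZMOD d]) :
    ∀ i < d, (d : ℤ) ∣ Pool.Agent.TH930.GH.mq m i * i - (fun i => if i = 0 then 0 else r i) i := by
  intro i hi
  simp only [Pool.Agent.TH930.GH.mq]
  split_ifs with h0
  · subst h0; simp
  · exact (hr i (by omega) hi).dvd

/-- the condition on `m` -/
theorem pow_lt {d m : ℕ} (hd : 2 ≤ d) (hc : Nat.Coprime m d)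
    (hle : (m : ℝ) ≤ (d : ℝ) ^ ((d : ℝ) / ((d : ℝ) - 1))) : m ^ (d - 1) < d ^ d := by
  have h3 := Pool.Agent.H319R2.Moller.pow_le_of_rpow (d := d) (m := m) hd hle
  refine lt_of_le_of_ne h3 ?_
  intro h4
  have h5 : Nat.Coprime (m ^ (d - 1)) (d ^ d) := Nat.Coprime.pow _ _ hc
  rw [h4, Nat.coprime_self] at h5
  have : 1 < d ^ d := Nat.one_lt_pow (by omega) (by omega)
  omega

/-- Let `gcd(m, d) = 1` and `d < m ≤ d ^ (d / (d - 1))`, and let `h(d, m)` be the `d`-ary entropy of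
`log d / log m`, in base `d`. There is `c > 1 - h(d, m)`, depending only on `d` and `m`, such that for every
admissible `R` there is `C` with: for all `X, y ≥ 1` at most `C X / y^c` of the integers `1 ≤ n ≤ X` have
an orbit under `T` that stays positive and passes through no element `≤ y` of the exceptional set
`E(d, m, R)`. -/
theorem result (d m : ℕ) (hd : 2 ≤ d) (hm : d < m) (hc : Nat.Coprime m d)
    (hle : (m : ℝ) ≤ (d : ℝ) ^ ((d : ℝ) / ((d : ℝ) - 1))) :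
    ∃ c : ℝ, 0 < c ∧ 1 - Real.qaryEntropy d (Real.log d / Real.log m) / Real.log d < c ∧
      ∀ r : ℕ → ℤ, (∀ j : ℕ, 1 ≤ j → j < d → r j ≡ m * j [ZMOD d]) →
      ∃ C : ℝ, 0 < C ∧ ∀ X y : ℝ, 1 ≤ X → 1 ≤ y →
        (Set.ncard {n : ℤ | 1 ≤ n ∧ (n : ℝ) ≤ X ∧ (∀ k : ℕ, 0 < (T d m r)^[k] n) ∧
          ∀ k : ℕ, (T d m r)^[k] n ∈ E d m r → y < (((T d m r)^[k] n : ℤ) : ℝ)} : ℝ) ≤ C * X / y ^ c := by
  have hlt := pow_lt hd hc hle
  obtain ⟨h0, h1⟩ := Pool.Agent.TH930.GH.hq_lt hd hm hlt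
  obtain ⟨c, hcc, h⟩ := Pool.Agent.TH930.GH.moller_power hd hm hc hlt
  refine ⟨c, by linarith, hcc, fun r hr => ?_⟩
  obtain ⟨C, hC, h⟩ := h _ (adm_r (m := m) hr)
  rw [← T_eq d m hd r] at h
  refine ⟨C, hC, fun X y hX hy => ?_⟩
  refine le_trans ?_ (h X y hX hy)
  have hfin : {x : ℤ | |(x : ℝ)| ≤ X ∧ ∀ k : ℕ, y < |(((T d m r)^[k] x : ℤ) : ℝ)|}.Finite := by
    apply (Set.finite_Icc (-⌈X⌉) ⌈X⌉).subset
    rintro x ⟨hx, -⟩
    have h1 := abs_le.1 hx
    have h2 := Int.le_ceil X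
    rw [Set.mem_Icc]
    constructor
    · have : (-(⌈X⌉ : ℤ) : ℝ) ≤ x := by linarith
      exact_mod_cast this
    · have : (x : ℝ) ≤ (⌈X⌉ : ℤ) := by linarith
      exact_mod_cast this
  have hsub : {n : ℤ | 1 ≤ n ∧ (n : ℝ) ≤ X ∧ (∀ k : ℕ, 0 < (T d m r)^[k] n) ∧
      ∀ k : ℕ, (T d m r)^[k] n ∈ E d m r → y < (((T d m r)^[k] n : ℤ) : ℝ)} ⊆
      {x : ℤ | |(x : ℝ)| ≤ X ∧ ∀ k : ℕ, y < |(((T d m r)^[k] x : ℤ) : ℝ)|} := by
    rintro n ⟨h1, h2, h3, h4⟩
    have h1' : (1 : ℝ) ≤ n := by exact_mod_cast h1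
    refine ⟨by rw [abs_of_pos (by linarith)]; exact h2, fun k => ?_⟩
    have h5 : (0 : ℝ) < (((T d m r)^[k] n : ℤ) : ℝ) := by exact_mod_cast h3 k
    rw [abs_of_pos h5]
    by_contra hcon
    push Not at hcon
    obtain ⟨j, hj1, hj2⟩ := capture hd h3 hcon
    have := h4 j hj1
    linarith
  exact_mod_cast Set.ncard_le_ncard hsub hfin

end Pool.Agent.Results.MP_fd8838_nt.CaptureRate
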