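import Pool.Agent.TH930.GH.MollerB
import Pool.Agent.H319R2.GMoller2

set_option autoImplicit false

/-! Möller's maps: the number of elements of the exceptional set, below the entropy exponent. -/

namespace Pool.Agent.Results.MP_fd8838_nt.ExceptionalCount

open Finset

/-- the map `T(n) = n / d` if `d ∣ n` and `(m n - r_j) / d` if `n ≡ j mod d`, `1 ≤ j < d`; the points of a
`T`-orbit that are not divisible by `d` form the `H`-orbit -/
def T (d m : ℕ) (r : ℕ → ℤ) (n : ℤ) : ℤ :=
  if (d : ℤ) ∣ n then n / d else (m * n - r (n % d).toNat) / d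

/-- the exceptional set `E(d, m, R)`, in terms of `T`: the integers `e > 0` not divisible by `d` such that,
as long as the orbit of `e` stays positive, its terms not divisible by `d` (the terms of the `H`-orbit)
are `≥ e` -/
def E (d m : ℕ) (r : ℕ → ℤ) : Set ℤ :=
  {e : ℤ | 0 < e ∧ ¬ (d : ℤ) ∣ e ∧ ∀ k : ℕ, (∀ j ≤ k, 0 < (T d m r)^[j] e) →
    ¬ (d : ℤ) ∣ (T d m r)^[k] e → e ≤ (T d m r)^[k] e}

/-- a positive orbit contains a term not divisible by `d` that is at most the starting point -/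
theorem exists_nd {d m : ℕ} {r : ℕ → ℤ} (hd : 2 ≤ d) (N : ℕ) : ∀ z : ℤ, 0 < z → z.toNat ≤ N →
    (∀ k : ℕ, 0 < (T d m r)^[k] z) → ∃ i : ℕ, ¬ (d : ℤ) ∣ (T d m r)^[i] z ∧ (T d m r)^[i] z ≤ z := by
  induction N with
  | zero => intro z hz h; omega
  | succ N ih =>
    intro z hz hN hpos
    by_cases h : (d : ℤ) ∣ z
    · have hT : T d m r z = z / d := by unfold T; rw [if_pos h]
      obtain ⟨t, ht⟩ := h
      have hd0 : (0 : ℤ) < d := by exact_mod_cast (by omega : 0 < d)
      have hTt : T d m r z = t := by rw [hT, ht, Int.mul_ediv_cancel_left _ hd0.ne']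
      have ht0 : 0 < t := by
        by_contra hcon
        push Not at hcon
        nlinarith
      have hd2 : (2 : ℤ) ≤ d := by exact_mod_cast hd
      have htz : t < z := by nlinarith
      obtain ⟨i, h1, h2⟩ := ih t ht0 (by omega) (fun k => by
        have := hpos (k + 1)
        rwa [Function.iterate_succ_apply, hTt] at this)
      refine ⟨i + 1, ?_, ?_⟩
      · rwa [Function.iterate_succ_apply, hTt]
      · rw [Function.iterate_succ_apply, hTt]; linarith
    · exact ⟨0, h, le_refl _⟩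

/-- the map as a map of the general form -/
theorem T_eq (d m : ℕ) (hd : 2 ≤ d) (r : ℕ → ℤ) :
    T d m r = Pool.Agent.H319R3.GC.Tm d (Pool.Agent.TH930.GH.mq m) (fun i => if i = 0 then 0 else r i) := by
  funext n
  unfold T Pool.Agent.H319R3.GC.Tm
  have hn0 : 0 ≤ n % (d : ℤ) := Int.emod_nonneg _ (by omega)
  by_cases h : (d : ℤ) ∣ n
  · have h1 : (n % (d : ℤ)).toNat = 0 := by
      rw [Int.emod_eq_zero_of_dvd h]; rfl
    rw [if_pos h, h1]
    simp [Pool.Agent.TH930.GH.mq]
  · have h1 : (n % (d : ℤ)).toNat ≠ 0 := by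
      intro h2
      apply h
      apply Int.dvd_of_emod_eq_zero
      omega
    rw [if_neg h]
    simp [Pool.Agent.TH930.GH.mq, h1]

theorem adm_r {d m : ℕ} {r : ℕ → ℤ} (hr : ∀ j : ℕ, 1 ≤ j → j < d → r j ≡ m * j [ZMOD d]) :
    ∀ i < d, (d : ℤ) ∣ Pool.Agent.TH930.GH.mq m i * i - (fun i => if i = 0 then 0 else r i) i := by
  intro i hi
  simp only [Pool.Agent.TH930.GH.mq]
  split_ifs with h0
  · subst h0; simp
  · exact (hr i (by omega) hi).dvd

/-- the condition on `m` -/
theorem pow_lt {d m : ℕ} (hd : 2 ≤ d) (hc : Nat.Coprime m d)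
    (hle : (m : ℝ) ≤ (d : ℝ) ^ ((d : ℝ) / ((d : ℝ) - 1))) : m ^ (d - 1) < d ^ d := by
  have h3 := Pool.Agent.H319R2.Moller.pow_le_of_rpow (d := d) (m := m) hd hle
  refine lt_of_le_of_ne h3 ?_
  intro h4
  have h5 : Nat.Coprime (m ^ (d - 1)) (d ^ d) := Nat.Coprime.pow _ _ hc
  rw [h4, Nat.coprime_self] at h5
  have : 1 < d ^ d := Nat.one_lt_pow (by omega) (by omega)
  omega

/-- orbits of large elements of the exceptional set stay at or above their starting points -/
theorem least {d m : ℕ} {r : ℕ → ℤ} (hd : 2 ≤ d) (hm : d < m) {B : ℤ} (hB : ∀ i < d, |r i| ≤ B) {e : ℤ}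
    (he : e ∈ E d m r) (heB : B < e) : ∀ k : ℕ, e ≤ (T d m r)^[k] e := by
  obtain ⟨h0, h1, h2⟩ := he
  have hd0 : (0 : ℤ) < d := by exact_mod_cast (by omega : 0 < d)
  have hstep : ∀ z : ℤ, 0 < z → (¬ (d : ℤ) ∣ z → e ≤ z) → 0 < T d m r z := by
    intro z hz hze
    unfold T
    split_ifs with h
    · obtain ⟨t, rfl⟩ := h
      rw [Int.mul_ediv_cancel_left _ hd0.ne']
      by_contra hcon
      push Not at hcon
      nlinarith
    · have h3 := hze h
      have hmod : (z % (d : ℤ)).toNat < d := by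
        have h4 := Int.emod_lt_of_pos z hd0
        have h5 := Int.emod_nonneg z hd0.ne'
        omega
      have h4 := (abs_le.1 (hB _ hmod)).2
      have hmz : (d : ℤ) + 1 ≤ m := by exact_mod_cast hm
      have h5 : (d : ℤ) ≤ m * z - r (z % (d : ℤ)).toNat := by nlinarith
      have h6 : 1 ≤ (m * z - r (z % (d : ℤ)).toNat) / (d : ℤ) :=
        Int.le_ediv_of_mul_le hd0 (by linarith)
      linarith
  have hpos : ∀ k : ℕ, ∀ j ≤ k, 0 < (T d m r)^[j] e := by
    intro k
    induction k with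
    | zero => intro j hj; obtain rfl : j = 0 := by omega
              exact h0
    | succ k ih =>
      intro j hj
      rcases Nat.lt_or_ge k j with h | h
      · obtain rfl : j = k + 1 := by omega
        rw [Function.iterate_succ_apply']
        exact hstep _ (ih k le_rfl) (fun hk => h2 k ih hk)
      · exact ih j h
  intro k
  obtain ⟨i, h3, h4⟩ := exists_nd (m := m) (r := r) hd _ _ (hpos k k le_rfl) le_rfl (fun j => by
    rw [← Function.iterate_add_apply]; exact hpos _ _ le_rfl)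
  rw [← Function.iterate_add_apply] at h3 h4
  exact (h2 _ (hpos _) h3).trans h4

/-- Let `gcd(m, d) = 1` and `d < m ≤ d ^ (d / (d - 1))`, and let `h(d, m)` be the `d`-ary entropy of
`log d / log m`, in base `d`. There is `η < h(d, m)`, depending only on `d` and `m`, such that for every
admissible `R` there is `C` with: for all `X ≥ 1` the exceptional set `E(d, m, R)` has at most `C X^η`
elements `≤ X`. -/
theorem result (d m : ℕ) (hd : 2 ≤ d) (hm : d < m) (hc : Nat.Coprime m d)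
    (hle : (m : ℝ) ≤ (d : ℝ) ^ ((d : ℝ) / ((d : ℝ) - 1))) :
    ∃ η : ℝ, 0 < η ∧ η < Real.qaryEntropy d (Real.log d / Real.log m) / Real.log d ∧ η < 1 ∧
      ∀ r : ℕ → ℤ, (∀ j : ℕ, 1 ≤ j → j < d → r j ≡ m * j [ZMOD d]) →
      ∃ C : ℝ, 0 < C ∧ ∀ X : ℝ, 1 ≤ X →
        (Set.ncard {e : ℤ | e ∈ E d m r ∧ (e : ℝ) ≤ X} : ℝ) ≤ C * X ^ η := by
  classical
  have hlt := pow_lt hd hc hle
  obtain ⟨h0, h1⟩ := Pool.Agent.TH930.GH.hq_lt hd hm hlt
  obtain ⟨η, hη0, hη, h⟩ := Pool.Agent.TH930.GH.moller_least hd hm hc hlt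
  refine ⟨η, hη0, hη, by linarith, fun r hr => ?_⟩
  obtain ⟨C, hC, h⟩ := h _ (adm_r (m := m) hr)
  rw [← T_eq d m hd r] at h
  set B : ℤ := ∑ i ∈ range d, |r i| with hBdef
  have hB : ∀ i < d, |r i| ≤ B := fun i hi =>
    single_le_sum (f := fun i => |r i|) (fun _ _ => abs_nonneg _) (mem_range.2 hi)
  have hB0 : 0 ≤ B := sum_nonneg fun _ _ => abs_nonneg _
  refine ⟨C + B, by have : (0 : ℝ) ≤ B := by exact_mod_cast hB0
                    linarith, fun X hX => ?_⟩
  have hfin : {e : ℤ | e ∈ E d m r ∧ (e : ℝ) ≤ X}.Finite := by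
    apply (Set.finite_Icc (0 : ℤ) ⌈X⌉).subset
    rintro x ⟨hx, hxX⟩
    rw [Set.mem_Icc]
    refine ⟨hx.1.le, ?_⟩
    have h2 := Int.le_ceil X
    have : (x : ℝ) ≤ (⌈X⌉ : ℤ) := by linarith
    exact_mod_cast this
  rw [Set.ncard_eq_toFinset_card _ hfin]
  set F := hfin.toFinset with hF
  have hsplit : F.card ≤ (F.filter (fun e => B < e)).card + (Finset.Icc 1 B).card := by
    rw [← Finset.card_filter_add_card_filter_not (s := F) (fun e => B < e)]
    apply Nat.add_le_add_left
    apply card_le_card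
    intro e he
    rw [mem_filter, hF, Set.Finite.mem_toFinset] at he
    rw [Finset.mem_Icc]
    obtain ⟨⟨he1, -⟩, he2⟩ := he
    exact ⟨he1.1, by linarith⟩
  have hcB : ((Finset.Icc 1 B).card : ℝ) = B := by
    rw [Int.card_Icc, show B + 1 - 1 = B by ring]
    have : ((B.toNat : ℤ) : ℝ) = B := by rw [Int.toNat_of_nonneg hB0]
    exact_mod_cast this
  have hmain := h X hX (F.filter (fun e => B < e)) (by
    intro e he
    rw [mem_filter, hF, Set.Finite.mem_toFinset] at he
    obtain ⟨⟨he1, heX⟩, he2⟩ := he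
    have he0 : (0 : ℝ) < e := by exact_mod_cast he1.1
    refine ⟨by rw [abs_of_pos he0]; exact heX, fun k => ?_⟩
    have h3 := least hd hm hB he1 he2 k
    have h4 : (e : ℝ) ≤ (((T d m r)^[k] e : ℤ) : ℝ) := by exact_mod_cast h3
    rw [abs_of_pos he0]
    exact h4.trans (le_abs_self _))
  have hX1 : (1 : ℝ) ≤ X ^ η := Real.one_le_rpow hX hη0.le
  have hBR : (0 : ℝ) ≤ B := by exact_mod_cast hB0
  calc (F.card : ℝ) ≤ ((F.filter (fun e => B < e)).card : ℝ) + ((Finset.Icc 1 B).card : ℝ) := by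
        exact_mod_cast hsplit
    _ ≤ C * X ^ η + B := by rw [hcB]; linarith
    _ ≤ (C + B) * X ^ η := by nlinarith

end Pool.Agent.Results.MP_fd8838_nt.ExceptionalCount
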