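import Mathlib
import Pool.Agent.TH932.S2.All
import Pool.Agent.TH932.S2.F.Fin
import Pool.Agent.TH932.S2.G.Stay

set_option autoImplicit false

/-!
# The block complexity of the residue words of the elements of the exceptional sets
-/

namespace Pool.Agent.Results.MP_fd8838_nt.SuperlinearExceptional

open Filter Topology Pool.Agent.TH932.Words Pool.Agent.TH932.S2

/-- The generalised Hasse-Syracuse map `H(x) = (m x - r_j) / d ^ a(x)`, where `j` is the residue of
`x` modulo `d` and `d ^ a(x)` is the largest power of `d` dividing `m x - r_j`. -/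
noncomputable def H (d m : ℕ) (r : ℤ → ℤ) (x : ℤ) : ℤ :=
  (m * x - r (x % d)) / (d : ℤ) ^ multiplicity (d : ℤ) (m * x - r (x % d))

/-- The exceptional set `E(d, m, R)`: the positive integers `n` not divisible by `d` such that
`H^k(n) ≥ n` for all `k ≥ 1` for which `H^k(n)` is defined (the orbit stops at `y` if
`m y ≤ r_j`). -/
def E (d m : ℕ) (r : ℤ → ℤ) : Set ℤ :=
  {n | 0 < n ∧ ¬ (d : ℤ) ∣ n ∧ ∀ k, 1 ≤ k →
    (∀ i < k, r ((H d m r)^[i] n % d) < m * (H d m r)^[i] n) → n ≤ (H d m r)^[k] n}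

/-- The map `T(x) = x / d` if `d ∣ x`, `T(x) = (m x - r_j) / d` if `x ≡ j (mod d)`, `1 ≤ j < d`. -/
def T (d m : ℕ) (r : ℤ → ℤ) (x : ℤ) : ℤ := if x % d = 0 then x / d else (m * x - r (x % d)) / d

/-- the number of different words of `k` consecutive residues modulo `d` among the first `h` terms
of the `T`-orbit of `n` -/
noncomputable def words (d m : ℕ) (r : ℤ → ℤ) (n : ℤ) (h k : ℕ) : ℕ :=
  ((fun i : ℕ => fun j : Fin k => (((T d m r)^[i + j] n : ℤ) : ZMod d)) '' {i | i + k ≤ h}).ncard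

section
variable {d m : ℕ} {r : ℤ → ℤ}

lemma mod_range (hd : 2 ≤ d) {y : ℤ} (hy : ¬ (d : ℤ) ∣ y) : 1 ≤ y % d ∧ y % d < d := by
  have hd0 : (0 : ℤ) < d := by exact_mod_cast (by omega : 0 < d)
  have h1 := Int.emod_nonneg y hd0.ne'
  have h2 := Int.emod_lt_of_pos y hd0
  have h3 : y % d ≠ 0 := fun h => hy (Int.dvd_of_emod_eq_zero h)
  omega

lemma H_spec (hd : 2 ≤ d) (hr : ∀ j : ℤ, 1 ≤ j → j < d → (d : ℤ) ∣ m * j - r j) {y : ℤ}
    (hy : ¬ (d : ℤ) ∣ y) (hpos : r (y % d) < m * y) :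
    ¬ (d : ℤ) ∣ H d m r y ∧ ∃ v : ℕ, m * y - r (y % d) = (d : ℤ) ^ (v + 1) * H d m r y := by
  set z := m * y - r (y % d) with hz
  have hz0 : z ≠ 0 := by omega
  obtain ⟨h1, h2⟩ := mod_range hd hy
  have hdz : (d : ℤ) ∣ z := by
    have h3 := hr (y % d) h1 h2
    have h4 : (d : ℤ) ∣ m * (y - y % d) := Dvd.dvd.mul_left (Int.dvd_self_sub_emod) _
    have h5 := dvd_add h3 h4
    have h6 : (m : ℤ) * (y % d) - r (y % d) + m * (y - y % d) = z := by rw [hz]; ring
    rwa [h6] at h5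
  have hf : FiniteMultiplicity (d : ℤ) z := by
    rw [Int.finiteMultiplicity_iff]
    exact ⟨by simp; omega, hz0⟩
  have hv : 1 ≤ multiplicity (d : ℤ) z := by
    rw [← hf.pow_dvd_iff_le_multiplicity]
    simpa using hdz
  obtain ⟨v, hv'⟩ : ∃ v, multiplicity (d : ℤ) z = v + 1 := ⟨multiplicity (d : ℤ) z - 1, by omega⟩
  have hdvd : (d : ℤ) ^ (v + 1) ∣ z := by rw [← hv']; exact pow_multiplicity_dvd _ _
  have hH : H d m r y = z / (d : ℤ) ^ (v + 1) := by unfold H; rw [← hz, hv']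
  have hzH : z = (d : ℤ) ^ (v + 1) * H d m r y := by rw [hH, Int.mul_ediv_cancel' hdvd]
  refine ⟨fun h => ?_, v, hzH⟩
  have h7 : (d : ℤ) ^ (v + 1 + 1) ∣ z := by
    rw [hzH, pow_succ (d : ℤ) (v + 1)]
    exact mul_dvd_mul_left _ h
  have h8 := hf.pow_dvd_iff_le_multiplicity.1 h7
  omega

/-- the terms of the `T`-orbit of an element of the exceptional set stay above it -/
lemma orbit_ge (hd : 2 ≤ d) (hm : 1 ≤ m) (hr : ∀ j : ℤ, 1 ≤ j → j < d → (d : ℤ) ∣ m * j - r j)
    {ρ : ℤ} (hρ : ∀ j : ℤ, 1 ≤ j → j < d → r j ≤ ρ) {n : ℤ} (hn : n ∈ E d m r) (hnρ : ρ < n)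
    (t : ℕ) : n ≤ (T d m r)^[t] n := by
  have hd0 : (0 : ℤ) < d := by exact_mod_cast (by omega : 0 < d)
  have hm1 : (1 : ℤ) ≤ m := by exact_mod_cast hm
  obtain ⟨hn0, hnd, hE⟩ := hn
  have key : ∃ k s : ℕ, (∀ i < k, r ((H d m r)^[i] n % d) < m * (H d m r)^[i] n) ∧
      (T d m r)^[t] n = (d : ℤ) ^ s * (H d m r)^[k] n ∧ ¬ (d : ℤ) ∣ (H d m r)^[k] n := by
    induction t with
    | zero => exact ⟨0, 0, by simp, by simp, by simpa using hnd⟩
    | succ t ih =>
      obtain ⟨k, s, h1, h2, h3⟩ := ih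
      have hge : n ≤ (H d m r)^[k] n := by
        rcases Nat.eq_zero_or_pos k with h0 | h0
        · subst h0; simp
        · exact hE k h0 h1
      rcases Nat.eq_zero_or_pos s with h0 | h0
      · subst h0
        set y := (H d m r)^[k] n with hy
        obtain ⟨g1, g2⟩ := mod_range hd h3
        have hpos : r (y % d) < m * y := by
          have := hρ _ g1 g2
          nlinarith
        obtain ⟨k1, v, k2⟩ := H_spec hd hr h3 hpos
        refine ⟨k + 1, v, ?_, ?_, ?_⟩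
        · intro i hi
          rcases Nat.lt_or_ge i k with h4 | h4
          · exact h1 i h4
          · have : i = k := by omega
            subst this
            exact hpos
        · rw [Function.iterate_succ_apply', h2, pow_zero, one_mul, Function.iterate_succ_apply',
            ← hy]
          have h5 : T d m r y = (m * y - r (y % d)) / d := by
            unfold T
            rw [if_neg (by omega)]
          rw [h5, k2, pow_succ]
          have h6 : (d : ℤ) ^ v * d * H d m r y = d * ((d : ℤ) ^ v * H d m r y) := by ring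
          rw [h6, Int.mul_ediv_cancel_left _ hd0.ne']
        · rw [Function.iterate_succ_apply', ← hy]; exact k1
      · obtain ⟨s', rfl⟩ : ∃ s', s = s' + 1 := ⟨s - 1, by omega⟩
        refine ⟨k, s', h1, ?_, h3⟩
        rw [Function.iterate_succ_apply', h2]
        have h6 : (d : ℤ) ^ (s' + 1) * (H d m r)^[k] n = d * ((d : ℤ) ^ s' * (H d m r)^[k] n) := by
          ring
        unfold T
        rw [h6, if_pos (Int.mul_emod_right _ _), Int.mul_ediv_cancel_left _ hd0.ne']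
  obtain ⟨k, s, h1, h2, _⟩ := key
  have hge : n ≤ (H d m r)^[k] n := by
    rcases Nat.eq_zero_or_pos k with h0 | h0
    · subst h0; simp
    · exact hE k h0 h1
  rw [h2]
  have h3 : (1 : ℤ) ≤ (d : ℤ) ^ s := one_le_pow₀ (by omega)
  nlinarith

/-- the constant terms -/
def bt (d : ℕ) (r : ℤ → ℤ) (a : ZMod d) : ℤ := if a = 0 then 0 else -r (a.val : ℤ)

/-- a bound for the coefficients -/
def MM (d m : ℕ) (r : ℤ → ℤ) : ℕ := d + m + ∑ j ∈ Finset.range d, (r j).natAbs

lemma r_le (hj : ℤ) (h1 : 1 ≤ hj) (h2 : hj < d) : r hj ≤ (MM d m r : ℤ) := by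
  obtain ⟨j, rfl⟩ : ∃ j : ℕ, hj = j := ⟨hj.toNat, by omega⟩
  have h3 : (r j).natAbs ≤ ∑ j ∈ Finset.range d, (r j).natAbs :=
    Finset.single_le_sum (f := fun j : ℕ => (r (j : ℤ)).natAbs) (fun _ _ => Nat.zero_le _)
      (Finset.mem_range.2 (by omega))
  unfold MM
  have h4 : r j ≤ ((r j).natAbs : ℤ) := Int.le_natAbs
  push_cast at h3 ⊢
  have h5 : (((r j).natAbs : ℕ) : ℤ) ≤ ((∑ j ∈ Finset.range d, (r j).natAbs : ℕ) : ℤ) := by
    exact_mod_cast h3
  push_cast at h5 h4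
  linarith [show (0 : ℤ) ≤ (d : ℤ) from by positivity, show (0 : ℤ) ≤ (m : ℤ) from by positivity]

/-- the affine maps -/
def TD (r : ℤ → ℤ) (hd : 2 ≤ d) (hm : 2 ≤ m) (hco : Nat.Coprime m d) : F.Dt (ZMod d) where
  p := d
  q := m
  M := MM d m r
  δ := fun a => if a = 0 then 0 else 1
  β := bt d r
  hp := hd
  hq := hm
  hpq := Nat.isCoprime_iff_coprime.2 hco
  hpM := by unfold MM; omega
  hqM := by
    intro a
    unfold MM
    split_ifs
    · rw [pow_zero]; omega
    · rw [pow_one]; omega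
  hβM := by
    intro a
    have : NeZero d := ⟨by omega⟩
    have h := a.val_lt
    unfold bt
    split_ifs with h0
    · simp
    · have h3 : (r (a.val : ℤ)).natAbs ≤ ∑ j ∈ Finset.range d, (r j).natAbs :=
        Finset.single_le_sum (f := fun j : ℕ => (r (j : ℤ)).natAbs) (fun _ _ => Nat.zero_le _)
          (Finset.mem_range.2 h)
      rw [abs_neg, Int.abs_eq_natAbs]
      unfold MM
      have h5 : (((r (a.val : ℤ)).natAbs : ℕ) : ℤ)
          ≤ ((∑ j ∈ Finset.range d, (r j).natAbs : ℕ) : ℤ) := by exact_mod_cast h3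
      push_cast at h5 ⊢
      linarith [show (0 : ℤ) ≤ (d : ℤ) from by positivity,
        show (0 : ℤ) ≤ (m : ℤ) from by positivity]

lemma mp (hd : 2 ≤ d) (hm : 2 ≤ m) (hco : Nat.Coprime m d)
    (hr : ∀ j : ℤ, 1 ≤ j → j < d → (d : ℤ) ∣ m * j - r j) :
    F.Mp (TD r hd hm hco) 1 (fun y => ((y : ℤ) : ZMod d)) (T d m r) where
  hd := isCoprime_one_left
  hG := by
    intro y
    have : NeZero d := ⟨by omega⟩
    change (d : ℤ) * T d m r y = (m : ℤ) ^ (if ((y : ℤ) : ZMod d) = 0 then 0 else 1) * y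
      + 1 * bt d r ((y : ℤ) : ZMod d)
    unfold T bt
    by_cases h0 : (d : ℤ) ∣ y
    · have h1 : ((y : ℤ) : ZMod d) = 0 := (ZMod.intCast_zmod_eq_zero_iff_dvd _ _).2 h0
      rw [if_pos h1, if_pos h1, if_pos (Int.emod_eq_zero_of_dvd h0), Int.mul_ediv_cancel' h0]
      ring
    · have h1 : ((y : ℤ) : ZMod d) ≠ 0 := fun h => h0 ((ZMod.intCast_zmod_eq_zero_iff_dvd _ _).1 h)
      obtain ⟨g1, g2⟩ := mod_range hd h0
      have h2 : ((((y : ℤ) : ZMod d).val : ℕ) : ℤ) = y % d := ZMod.val_intCast y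
      rw [if_neg h1, if_neg h1, if_neg (by omega), h2]
      have hdz : (d : ℤ) ∣ m * y - r (y % d) := by
        have h3 := hr (y % d) g1 g2
        have h4 : (d : ℤ) ∣ m * (y - y % d) := Dvd.dvd.mul_left (Int.dvd_self_sub_emod) _
        have h5 := dvd_add h3 h4
        have h6 : (m : ℤ) * (y % d) - r (y % d) + m * (y - y % d) = m * y - r (y % d) := by ring
        rwa [h6] at h5
      rw [Int.mul_ediv_cancel' hdz]
      ring

lemma words_mono [NeZero d] (n : ℤ) {h h' : ℕ} (hh : h ≤ h') (k : ℕ) :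
    words d m r n h k ≤ words d m r n h' k := by
  unfold words
  apply Set.ncard_le_ncard _ (Set.toFinite _)
  rintro _ ⟨i, hi, rfl⟩
  exact ⟨i, le_trans (a := i + k) hi hh, rfl⟩

end

/-- the case of orbits which stay above their first term -/
theorem stays (d m : ℕ) (hd : 2 ≤ d) (hm : 1 ≤ m) (hco : Nat.Coprime m d) (r : ℤ → ℤ)
    (hr : ∀ j : ℤ, 1 ≤ j → j < d → (d : ℤ) ∣ m * j - r j) (A : ℝ) :
    ∃ κ : ℝ, 0 < κ ∧ ∀ δ : ℝ, 0 < δ → ∃ K : ℕ, ∀ n : ℤ, (K : ℤ) < n →
      (∀ t, n ≤ (T d m r)^[t] n) → ∀ N : ℕ, δ * Real.log n ≤ N → N ≤ κ * Real.log n →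
      A * N < words d m r n (K * N) N := by
  have : NeZero d := ⟨by omega⟩
  rcases Nat.lt_or_ge m 2 with hm2 | hm2
  · -- the trivial case `m = 1`
    obtain rfl : m = 1 := by omega
    refine ⟨1, one_pos, fun δ _ => ⟨MM d 1 r, fun n hK hst => ?_⟩⟩
    exfalso
    have h1 := hst 1
    rw [Function.iterate_one] at h1
    have hdz : (2 : ℤ) ≤ d := by exact_mod_cast hd
    have hMM : (0 : ℤ) ≤ (MM d 1 r : ℤ) := by positivity
    unfold T at h1
    split_ifs at h1 with h0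
    · have h2 := Int.mul_ediv_cancel' (Int.dvd_of_emod_eq_zero h0)
      nlinarith
    · have hnd : ¬ (d : ℤ) ∣ n := fun h => h0 (Int.emod_eq_zero_of_dvd h)
      obtain ⟨g1, g2⟩ := mod_range hd hnd
      have hdz' : (d : ℤ) ∣ (1 : ℕ) * n - r (n % d) := by
        have h3 := hr (n % d) g1 g2
        have h4 : (d : ℤ) ∣ (1 : ℕ) * (n - n % d) := Dvd.dvd.mul_left (Int.dvd_self_sub_emod) _
        have h5 := dvd_add h3 h4
        have h6 : ((1 : ℕ) : ℤ) * (n % d) - r (n % d) + (1 : ℕ) * (n - n % d)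
          = (1 : ℕ) * n - r (n % d) := by ring
        rwa [h6] at h5
      have h2 := Int.mul_ediv_cancel' hdz'
      have h4 : -r (n % d) ≤ (MM d 1 r : ℤ) := by
        obtain ⟨j, hj⟩ : ∃ j : ℕ, n % d = j := ⟨(n % d).toNat, by omega⟩
        rw [hj]
        have h3 : (r j).natAbs ≤ ∑ j ∈ Finset.range d, (r j).natAbs :=
          Finset.single_le_sum (f := fun j : ℕ => (r (j : ℤ)).natAbs) (fun _ _ => Nat.zero_le _)
            (Finset.mem_range.2 (by omega))
        have h5 : (((r j).natAbs : ℕ) : ℤ) ≤ ((∑ j ∈ Finset.range d, (r j).natAbs : ℕ) : ℤ) := by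
          exact_mod_cast h3
        have h6 : -r j ≤ ((r j).natAbs : ℤ) := by
          rw [← Int.abs_eq_natAbs]; exact neg_le_abs _
        unfold MM
        push_cast at h5 h6 ⊢
        linarith [show (0 : ℤ) ≤ (d : ℤ) from by positivity]
      push_cast at h1 h2
      nlinarith
  obtain ⟨κ, hκ, h⟩ := G.stay (TD r hd hm2 hco) A
  refine ⟨κ, hκ, fun δ hδ => ?_⟩
  obtain ⟨K, hK1, hK⟩ := h δ hδ
  refine ⟨K, fun n hn hst N hN1 hN2 => ?_⟩
  have hn0 : 0 < n := by
    have : (0 : ℤ) ≤ K := by positivity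
    linarith
  have hn0R : (0 : ℝ) < n := by exact_mod_cast hn0
  have habs : |(n : ℝ)| = n := abs_of_pos hn0R
  exact hK (fun y => ((y : ℤ) : ZMod d)) (T d m r) (mp hd hm2 hco hr) n (by
    rw [abs_of_pos hn0]; exact hn) (fun t => by
    rw [abs_of_pos hn0]
    exact (hst t).trans (le_abs_self _)) N (by rw [habs]; exact hN1) (by rw [habs]; exact hN2)

/-- **Result.** Let `d ≥ 2`, `m ≥ 1` be coprime and `R = {r_j}` admissible, and let `A` be a real
number.

(1) There is `κ > 0` such that for every `δ > 0` there is `K` with the following property. For every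
element `n > K` of the exceptional set `E(d, m, R)` and every integer `N` with
`δ log n ≤ N ≤ κ log n` more than `A N` different words of length `N` occur among the residues modulo
`d` of the first `K N` terms of the `T`-orbit of `n`.

(2) The same (with other `K`) holds for all integers `n > K` such that all terms of the `T`-orbit of
`n` are at least `n`.

(3) Only finitely many elements of `E(d, m, R)` have a word of residues with at most `A k` factors
of length `k` for every `k ≥ 1`. -/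
theorem result (d m : ℕ) (hd : 2 ≤ d) (hm : 1 ≤ m) (hco : Nat.Coprime m d) (r : ℤ → ℤ)
    (hr : ∀ j : ℤ, 1 ≤ j → j < d → (d : ℤ) ∣ m * j - r j) (A : ℝ) :
    (∃ κ : ℝ, 0 < κ ∧ ∀ δ : ℝ, 0 < δ → ∃ K : ℕ, ∀ n ∈ E d m r, (K : ℤ) < n →
      ∀ N : ℕ, δ * Real.log n ≤ N → N ≤ κ * Real.log n → A * N < words d m r n (K * N) N) ∧
    (∃ κ : ℝ, 0 < κ ∧ ∀ δ : ℝ, 0 < δ → ∃ K : ℕ, ∀ n : ℤ, (K : ℤ) < n →
      (∀ t, n ≤ (T d m r)^[t] n) → ∀ N : ℕ, δ * Real.log n ≤ N → N ≤ κ * Real.log n →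
      A * N < words d m r n (K * N) N) ∧
    {n ∈ E d m r | ∀ h k : ℕ, 1 ≤ k → (words d m r n h k : ℝ) ≤ A * k}.Finite := by
  have : NeZero d := ⟨by omega⟩
  obtain ⟨κ, hκ, h⟩ := stays d m hd hm hco r hr A
  have h1 : ∀ δ : ℝ, 0 < δ → ∃ K : ℕ, ∀ n ∈ E d m r, (K : ℤ) < n →
      ∀ N : ℕ, δ * Real.log n ≤ N → N ≤ κ * Real.log n → A * N < words d m r n (K * N) N := by
    intro δ hδ
    obtain ⟨K, hK⟩ := h δ hδ
    refine ⟨K + MM d m r, fun n hn hKn N hN1 hN2 => ?_⟩
    push_cast at hKn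
    have hK0 : (0 : ℤ) ≤ K := by positivity
    have hM0 : (0 : ℤ) ≤ (MM d m r : ℤ) := by positivity
    refine lt_of_lt_of_le (hK n (by linarith) (fun t => orbit_ge hd hm hr (ρ := MM d m r)
      (fun j h1 h2 => r_le j h1 h2) hn (by linarith) t) N hN1 hN2) ?_
    exact_mod_cast words_mono (m := m) (r := r) n (Nat.mul_le_mul_right N (by omega)) N
  refine ⟨⟨κ, hκ, h1⟩, ⟨κ, hκ, h⟩, ?_⟩
  obtain ⟨K, hK⟩ := h1 (κ / 2) (by positivity)
  obtain ⟨K1, hK1⟩ := exists_nat_ge (Real.exp (2 / κ))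
  refine (Set.finite_Icc (0 : ℤ) (K + K1)).subset ?_
  rintro n ⟨hn, hw⟩
  refine ⟨hn.1.le, ?_⟩
  by_contra hcon
  push Not at hcon
  have hK0 : (0 : ℤ) ≤ K := by positivity
  have hK10 : (0 : ℤ) ≤ K1 := by positivity
  have hn0R : (0 : ℝ) < n := by exact_mod_cast hn.1
  have hlog : 2 / κ ≤ Real.log n := by
    rw [Real.le_log_iff_exp_le hn0R]
    refine hK1.trans ?_
    have : ((K1 : ℕ) : ℤ) ≤ n := by linarith
    exact_mod_cast this
  have hlog2 : 2 ≤ κ * Real.log n := by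
    rw [div_le_iff₀ hκ] at hlog
    linarith
  set N : ℕ := ⌊κ * Real.log n⌋₊ with hN
  have hN1 : (N : ℝ) ≤ κ * Real.log n := Nat.floor_le (by linarith)
  have hN2 : κ * Real.log n < N + 1 := Nat.lt_floor_add_one _
  have hN3 : 1 ≤ N := by
    have : (1 : ℝ) < N + 1 := by linarith
    have : (0 : ℝ) < N := by linarith
    exact_mod_cast this
  have h2 := hK n hn (by linarith) N (by
    have : (1 : ℝ) ≤ N := by exact_mod_cast hN3
    linarith) hN1
  exact absurd (hw _ N hN3) (not_le.2 h2)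

end Pool.Agent.Results.MP_fd8838_nt.SuperlinearExceptional
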